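import Mathlib

/-!
# The permutation-building game

Two players A and B write the one-line words of two permutations `σ`, `τ` of `N` points, entry by
entry. The points `1, ..., N` are the elements of `Fin N` (position `i` is the index `i - 1`).
A wins if `σ` and `τ` generate the symmetric group.
-/

set_option autoImplicit false

namespace Q167.PermGame

open Equiv

/-- The two players; A moves first. -/
inductive Player
  | A
  | B

/-- The two conventions on who chooses the entries of the second word. -/
inductive Convention
  | I
  | II

/-- The player who chooses entry number `i` (`1 ≤ i ≤ N`) of the first word. -/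
def chooserFirst (i : ℕ) : Player := if Odd i then Player.A else Player.B

/-- The player who chooses entry number `i` (`1 ≤ i ≤ N`) of the second word. Convention I: A for
odd `i`. Convention II: A when `N + i` is odd, i.e. the `2 N` entries are chosen alternately. -/
def chooserSecond : Convention → ℕ → ℕ → Player
  | Convention.I, _, i => if Odd i then Player.A else Player.B
  | Convention.II, N, i => if Odd (N + i) then Player.A else Player.B

/-- The first `i` entries of the one-line word of the permutation `π`. -/
def pre {N : ℕ} (π : Perm (Fin N)) (i : ℕ) : List (Fin N) := (List.ofFn π).take i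

/-- A strategy. When the entries of the first word written so far are `w`, it chooses `first w` as
the next entry; when the first word is `σ` and the entries of the second word written so far are
`w`, it chooses `second σ w` as the next entry. The choices must be legal: the value chosen must
not already occur in the current word. -/
structure Strategy (N : ℕ) where
  first : List (Fin N) → Fin N
  second : Perm (Fin N) → List (Fin N) → Fin N
  first_legal : ∀ w : List (Fin N), w.Nodup → w.length < N → first w ∉ w
  second_legal : ∀ (σ : Perm (Fin N)) (w : List (Fin N)), w.Nodup → w.length < N → second σ w ∉ w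

/-- In the complete play with words `σ`, `τ`, every entry that player `p` had to choose was chosen
according to the strategy `S`. (The index `i : Fin N` is the entry number `i + 1`.) -/
def Follows {N : ℕ} (c : Convention) (p : Player) (S : Strategy N) (σ τ : Perm (Fin N)) : Prop :=
  (∀ i : Fin N, chooserFirst (i + 1) = p → σ i = S.first (pre σ i)) ∧
  (∀ i : Fin N, chooserSecond c N (i + 1) = p → τ i = S.second σ (pre τ i))

/-- A wins the play `σ`, `τ` if `σ` and `τ` generate the symmetric group; otherwise B wins. -/
def Wins {N : ℕ} : Player → Perm (Fin N) → Perm (Fin N) → Prop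
  | Player.A, σ, τ => Subgroup.closure {σ, τ} = ⊤
  | Player.B, σ, τ => Subgroup.closure {σ, τ} ≠ ⊤

/-- Player `p` has a winning strategy in the game on `N` points under convention `c`. -/
def HasWinningStrategy (c : Convention) (p : Player) (N : ℕ) : Prop :=
  ∃ S : Strategy N, ∀ σ τ : Perm (Fin N), Follows c p S σ τ → Wins p σ τ

/-! ## Words -/

lemma length_pre {N : ℕ} (π : Perm (Fin N)) {i : ℕ} (hi : i ≤ N) : (pre π i).length = i := by
  simp [pre, hi]

lemma getElem_pre {N : ℕ} (π : Perm (Fin N)) {i j : ℕ} (h : j < (pre π i).length) (hj : j < N) :
    (pre π i)[j] = π ⟨j, hj⟩ := by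
  simp [pre]

lemma mem_pre {N : ℕ} (π : Perm (Fin N)) {i : ℕ} {x : Fin N} :
    x ∈ pre π i ↔ ∃ j : Fin N, (j : ℕ) < i ∧ π j = x := by
  unfold pre
  rw [List.mem_take_iff_getElem]
  constructor
  · rintro ⟨j, hj, hx⟩
    simp only [List.length_ofFn, lt_inf_iff] at hj
    refine ⟨⟨j, hj.2⟩, hj.1, ?_⟩
    simpa using hx
  · rintro ⟨j, hj, hx⟩
    refine ⟨j, ?_, ?_⟩
    · simp only [List.length_ofFn, lt_inf_iff]
      exact ⟨hj, j.2⟩
    · simpa using hx

lemma nodup_pre {N : ℕ} (π : Perm (Fin N)) (i : ℕ) : (pre π i).Nodup := by
  unfold pre
  exact List.Nodup.sublist (List.take_sublist _ _) (List.nodup_ofFn.2 π.injective)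

lemma pre_succ {N : ℕ} (π : Perm (Fin N)) {i : ℕ} (hi : i < N) :
    pre π (i + 1) = pre π i ++ [π ⟨i, hi⟩] := by
  unfold pre
  rw [List.take_add_one]
  simp [hi]

lemma exists_notMem {N : ℕ} (w : List (Fin N)) (h : w.length < N) : ∃ v : Fin N, v ∉ w := by
  by_contra hcon
  push Not at hcon
  have h1 : (Finset.univ : Finset (Fin N)) ⊆ w.toFinset := by
    intro x _
    simpa using hcon x
  have h2 := Finset.card_le_card h1
  have h3 := List.toFinset_card_le w
  simp at h2
  omega

/-- Replace an illegal choice by a legal one. -/
noncomputable def legalize {N : ℕ} (f : List (Fin N) → Fin N) (w : List (Fin N)) : Fin N :=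
  open Classical in
  if f w ∉ w then f w else if h : ∃ v : Fin N, v ∉ w then h.choose else f w

lemma legalize_legal {N : ℕ} (f : List (Fin N) → Fin N) (w : List (Fin N))
    (h : w.length < N) : legalize f w ∉ w := by
  unfold legalize
  by_cases h1 : f w ∉ w
  · rw [if_pos h1]; exact h1
  · have h2 := exists_notMem w h
    rw [if_neg h1, dif_pos h2]
    exact h2.choose_spec

lemma legalize_eq {N : ℕ} {f : List (Fin N) → Fin N} {w : List (Fin N)}
    (h : f w ∉ w) : legalize f w = f w := by
  unfold legalize
  rw [if_pos h]

/-- A nodup word is the beginning of a permutation. -/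
lemma exists_perm_pre {N : ℕ} (w : List (Fin N)) (hw : w.Nodup) :
    ∃ ρ : Perm (Fin N), pre ρ w.length = w := by
  classical
  set l : List (Fin N) := w ++ (List.finRange N).filter (fun x => x ∉ w) with hl
  have hnd : l.Nodup := by
    rw [hl, List.nodup_append]
    refine ⟨hw, (List.nodup_finRange N).filter _, ?_⟩
    intro a ha b hb hab
    rw [List.mem_filter] at hb
    subst hab
    simp at hb
    exact hb ha
  have hmem : ∀ x, x ∈ l := by
    intro x
    rw [hl, List.mem_append, List.mem_filter]
    by_cases hx : x ∈ w
    · exact Or.inl hx
    · exact Or.inr ⟨List.mem_finRange x, by simpa using hx⟩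
  have hlen : l.length = N := by
    have h1 : l.toFinset = Finset.univ := by
      ext x; simp [hmem x]
    have h2 := List.toFinset_card_of_nodup hnd
    rw [h1] at h2
    simpa using h2.symm
  let e : Fin N ≃ Fin N := (finCongr hlen.symm).trans (hnd.getEquivOfForallMemList l hmem)
  refine ⟨e, ?_⟩
  have hofn : List.ofFn e = l := by
    apply List.ext_getElem
    · simp [hlen]
    · intro n h1 h2
      simp [e]
  unfold pre
  rw [hofn, hl]
  simp

/-- Two permutations which agree except possibly at the last index are equal. -/
lemma eq_of_agree {N : ℕ} {σ ρ : Perm (Fin N)} (h : ∀ j : Fin N, (j : ℕ) + 1 < N → σ j = ρ j) :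
    σ = ρ := by
  ext x
  congr 1
  by_cases hx : (x : ℕ) + 1 < N
  · exact h x hx
  · -- `x` is the last index
    obtain ⟨y, hy⟩ := σ.surjective (ρ x)
    by_cases hyx : y = x
    · rw [← hy, hyx]
    · have h1 : (y : ℕ) + 1 < N := by
        have h2 : (y : ℕ) ≠ x := fun h => hyx (Fin.ext h)
        have := y.2
        have := x.2
        omega
      rw [h y h1] at hy
      exact absurd (ρ.injective hy) hyx

/-- The word produced by a legal rule. -/
lemma exists_play {N : ℕ} (next : List (Fin N) → Fin N)
    (hnext : ∀ w : List (Fin N), w.Nodup → w.length < N → next w ∉ w) :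
    ∃ σ : Perm (Fin N), ∀ i : Fin N, σ i = next (pre σ i) := by
  have key : ∀ n : ℕ, n ≤ N → ∃ w : List (Fin N), w.Nodup ∧ w.length = n ∧
      ∀ (j : ℕ) (hj : j < w.length), w[j] = next (w.take j) := by
    intro n
    induction n with
    | zero => intro _; exact ⟨[], by simp, by simp, by simp⟩
    | succ n ih =>
      intro hn
      obtain ⟨w, h1, h2, h3⟩ := ih (by omega)
      refine ⟨w ++ [next w], ?_, by simp [h2], ?_⟩
      · rw [List.nodup_append]
        refine ⟨h1, by simp, ?_⟩
        intro a ha b hb hab
        simp only [List.mem_singleton] at hb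
        subst hb
        subst hab
        exact hnext w h1 (by omega) ha
      · intro j hj
        by_cases hjn : j < w.length
        · rw [List.getElem_append_left hjn, List.take_append_of_le_length hjn.le]
          exact h3 j hjn
        · have hje : j = w.length := by
            rw [List.length_append, List.length_singleton] at hj
            omega
          subst hje
          simp
  obtain ⟨w, h1, h2, h3⟩ := key N le_rfl
  obtain ⟨ρ, hρ⟩ := exists_perm_pre w h1
  have hfull : List.ofFn ρ = w := by
    have : pre ρ w.length = List.ofFn ρ := by
      unfold pre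
      rw [h2]
      exact List.take_of_length_le (by simp)
    rw [← this, hρ]
  refine ⟨ρ, fun i => ?_⟩
  have hi : (i : ℕ) < w.length := by rw [h2]; exact i.2
  have h4 := h3 i hi
  have h5 : w[(i : ℕ)] = ρ i := by
    have : (List.ofFn ρ)[(i : ℕ)]'(by simp) = ρ i := by simp
    rw [← this]
    congr 1
    exact hfull.symm
  rw [← h5, h4]
  unfold pre
  rw [hfull]

/-- The players cannot both have a winning strategy. -/
lemma not_both (c : Convention) (N : ℕ) (hA : HasWinningStrategy c Player.A N)
    (hB : HasWinningStrategy c Player.B N) : False := by
  obtain ⟨S, hS⟩ := hA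
  obtain ⟨T, hT⟩ := hB
  obtain ⟨σ, hσ⟩ := exists_play (N := N)
    (fun w => match chooserFirst (w.length + 1) with
      | Player.A => S.first w
      | Player.B => T.first w) (by
      intro w hw hl
      cases chooserFirst (w.length + 1) with
      | A => exact S.first_legal w hw hl
      | B => exact T.first_legal w hw hl)
  obtain ⟨τ, hτ⟩ := exists_play (N := N)
    (fun w => match chooserSecond c N (w.length + 1) with
      | Player.A => S.second σ w
      | Player.B => T.second σ w) (by
      intro w hw hl
      cases chooserSecond c N (w.length + 1) with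
      | A => exact S.second_legal σ w hw hl
      | B => exact T.second_legal σ w hw hl)
  refine hT σ τ ⟨fun i hi => ?_, fun i hi => ?_⟩ (hS σ τ ⟨fun i hi => ?_, fun i hi => ?_⟩)
  · have h := hσ i
    simp only [length_pre σ i.2.le, hi] at h
    exact h
  · have h := hτ i
    simp only [length_pre τ i.2.le, hi] at h
    exact h
  · have h := hσ i
    simp only [length_pre σ i.2.le, hi] at h
    exact h
  · have h := hτ i
    simp only [length_pre τ i.2.le, hi] at h
    exact h

end Q167.PermGame
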