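import Pool.Agent.Q167.PermGame.Basic

/-!
# Two strategies for player B

* for even `N`: always answer with the partner of the value just chosen by A;
* make a word even by choosing its last free entry.
-/

set_option autoImplicit false

namespace Q167.PermGame

open Equiv

/-! ## The partner of a point -/

/-- The partner of a point: the pairs are `{0, 1}, {2, 3}, ...`. -/
def partner {N : ℕ} (hN : Even N) (x : Fin N) : Fin N :=
  if h : (x : ℕ) % 2 = 0 then ⟨x + 1, by obtain ⟨m, hm⟩ := hN; have := x.2; omega⟩
  else ⟨x - 1, by have := x.2; omega⟩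

lemma partner_val_even {N : ℕ} (hN : Even N) {x : Fin N} (h : (x : ℕ) % 2 = 0) :
    (partner hN x : ℕ) = x + 1 := by
  simp [partner, h]

lemma partner_val_odd {N : ℕ} (hN : Even N) {x : Fin N} (h : (x : ℕ) % 2 = 1) :
    (partner hN x : ℕ) = x - 1 := by
  have h' : ¬ (x : ℕ) % 2 = 0 := by omega
  simp [partner, h']

lemma partner_partner {N : ℕ} (hN : Even N) (x : Fin N) : partner hN (partner hN x) = x := by
  apply Fin.ext
  rcases Nat.mod_two_eq_zero_or_one (x : ℕ) with h | h
  · have h1 := partner_val_even hN h
    rw [partner_val_odd hN (by omega), h1]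
    omega
  · have h1 := partner_val_odd hN h
    rw [partner_val_even hN (by omega), h1]
    omega

lemma partner_ne {N : ℕ} (hN : Even N) (x : Fin N) : partner hN x ≠ x := by
  intro h
  have h' := congrArg Fin.val h
  rcases Nat.mod_two_eq_zero_or_one (x : ℕ) with h2 | h2
  · have h1 := partner_val_even hN h2
    omega
  · have h1 := partner_val_odd hN h2
    omega

/-- The rule: answer with the partner of the last entry. -/
def pairRule {N : ℕ} (hN : Even N) (h0 : 0 < N) (w : List (Fin N)) : Fin N :=
  match w.getLast? with
  | some x => partner hN x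
  | none => ⟨0, h0⟩

lemma pairRule_pre {N : ℕ} (hN : Even N) (h0 : 0 < N) (π : Perm (Fin N)) {i : ℕ} (hi : i < N) :
    pairRule hN h0 (pre π (i + 1)) = partner hN (π ⟨i, hi⟩) := by
  unfold pairRule
  rw [pre_succ π hi]
  simp

lemma pair_claim {N : ℕ} (hN : Even N) (h0 : 0 < N) (π : Perm (Fin N))
    (h : ∀ i : Fin N, (i : ℕ) % 2 = 1 → π i = legalize (pairRule hN h0) (pre π i)) :
    ∀ (n : ℕ) (j : Fin N), (j : ℕ) = n → n % 2 = 0 → π (partner hN j) = partner hN (π j) := by
  intro n
  induction n using Nat.strong_induction_on with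
  | _ n ih =>
    intro j hj hn
    subst hj
    have h1 : (partner hN j : ℕ) = j + 1 := partner_val_even hN hn
    have h2 := h (partner hN j) (by omega)
    rw [h1] at h2
    rw [h2, legalize_eq]
    · rw [pairRule_pre hN h0 π j.2]
    · rw [pairRule_pre hN h0 π j.2, mem_pre]
      rintro ⟨k, hk, hkj⟩
      rcases lt_or_eq_of_le (Nat.lt_succ_iff.1 hk) with hlt | heq
      · rcases Nat.mod_two_eq_zero_or_one (k : ℕ) with h3 | h3
        · -- `k` even: its partner has the value `π j`
          have h4 := ih k hlt k rfl h3
          rw [hkj, partner_partner] at h4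
          have h5 := congrArg Fin.val (π.injective h4)
          rw [partner_val_even hN h3] at h5
          have h6 : ((⟨(j : ℕ), j.2⟩ : Fin N) : ℕ) = j := rfl
          omega
        · -- `k` odd: `k` is the partner of an even index `k' < j`
          have h4 : (partner hN k : ℕ) = k - 1 := partner_val_odd hN h3
          have h5 := ih (partner hN k) (by omega) (partner hN k) rfl (by omega)
          rw [partner_partner, hkj] at h5
          have h6 := congrArg (partner hN) h5
          rw [partner_partner, partner_partner] at h6
          have h7 := congrArg Fin.val (π.injective h6)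
          have h8 : ((⟨(j : ℕ), j.2⟩ : Fin N) : ℕ) = j := rfl
          omega
      · have : k = j := Fin.ext heq
        subst this
        exact partner_ne hN (π k) hkj.symm

lemma pair_commute {N : ℕ} (hN : Even N) (h0 : 0 < N) (π : Perm (Fin N))
    (h : ∀ i : Fin N, (i : ℕ) % 2 = 1 → π i = legalize (pairRule hN h0) (pre π i)) (x : Fin N) :
    π (partner hN x) = partner hN (π x) := by
  have hc := pair_claim hN h0 π h
  rcases Nat.mod_two_eq_zero_or_one (x : ℕ) with h1 | h1
  · exact hc x x rfl h1
  · have h2 : (partner hN x : ℕ) = x - 1 := partner_val_odd hN h1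
    have h3 := hc (partner hN x) (partner hN x) rfl (by omega)
    rw [partner_partner] at h3
    rw [h3, partner_partner]

/-- For even `N ≥ 4` permutations which preserve the pairs do not generate. -/
lemma closure_ne_top_of_pair {N : ℕ} (hN : Even N) (h4 : 4 ≤ N) (σ τ : Perm (Fin N))
    (hσ : ∀ x, σ (partner hN x) = partner hN (σ x))
    (hτ : ∀ x, τ (partner hN x) = partner hN (τ x)) :
    Subgroup.closure {σ, τ} ≠ ⊤ := by
  intro htop
  have hall : ∀ g : Perm (Fin N), ∀ x, g (partner hN x) = partner hN (g x) := by
    intro g
    have hg : g ∈ Subgroup.closure {σ, τ} := by rw [htop]; trivial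
    induction hg using Subgroup.closure_induction with
    | mem y hy =>
      rcases hy with rfl | hy
      · exact hσ
      · rw [Set.mem_singleton_iff] at hy
        subst hy
        exact hτ
    | one => intro x; rfl
    | mul a b _ _ ha hb => intro x; rw [Perm.mul_apply, hb, ha, Perm.mul_apply]
    | inv a _ ha =>
      intro x
      rw [Perm.inv_eq_iff_eq, ha]
      simp
  let a : Fin N := ⟨0, by omega⟩
  let b : Fin N := ⟨1, by omega⟩
  let c : Fin N := ⟨2, by omega⟩
  let d : Fin N := ⟨3, by omega⟩
  have ha : partner hN a = b := Fin.ext (partner_val_even hN (by simp [a]))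
  have hc : partner hN c = d := Fin.ext (partner_val_even hN (by simp [c]))
  have h := hall (swap a c) a
  rw [ha, swap_apply_left, hc, swap_apply_of_ne_of_ne] at h
  · exact absurd (congrArg Fin.val h) (by simp [b, d])
  · intro h; exact absurd (congrArg Fin.val h) (by simp [a, b])
  · intro h; exact absurd (congrArg Fin.val h) (by simp [b, c])

/-! ## Even words -/

/-- Every nodup word which leaves at least two entries free is the beginning of an even
permutation. -/
lemma exists_even_pre {N : ℕ} (w : List (Fin N)) (hw : w.Nodup) (hlen : w.length + 2 ≤ N) :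
    ∃ ρ : Perm (Fin N), Perm.sign ρ = 1 ∧ pre ρ w.length = w := by
  obtain ⟨ρ, hρ⟩ := exists_perm_pre w hw
  rcases Int.units_eq_one_or (Perm.sign ρ) with h | h
  · exact ⟨ρ, h, hρ⟩
  · let a : Fin N := ⟨N - 2, by omega⟩
    let b : Fin N := ⟨N - 1, by omega⟩
    have hab : a ≠ b := by
      intro h
      have := congrArg Fin.val h
      simp [a, b] at this
      omega
    refine ⟨ρ * swap a b, ?_, ?_⟩
    · rw [Perm.sign_mul, h, Perm.sign_swap hab]; rfl
    · have h1 : pre (ρ * swap a b) w.length = pre ρ w.length := by
        apply List.ext_getElem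
        · rw [length_pre _ (by omega), length_pre _ (by omega)]
        · intro n h1 h2
          have h3 : n < w.length := by
            rw [length_pre _ (by omega)] at h1
            exact h1
          rw [getElem_pre _ h1 (by omega), getElem_pre _ h2 (by omega), Perm.mul_apply,
            swap_apply_of_ne_of_ne]
          · intro h; have := congrArg Fin.val h; simp [a] at this; omega
          · intro h; have := congrArg Fin.val h; simp [b] at this; omega
      rw [h1, hρ]

open Classical in
/-- The rule: follow an even permutation which extends the word. -/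
noncomputable def evenRule {N : ℕ} (h0 : 0 < N) (w : List (Fin N)) : Fin N :=
  if h : ∃ ρ : Perm (Fin N), Perm.sign ρ = 1 ∧ pre ρ w.length = w then
    if h2 : w.length < N then h.choose ⟨w.length, h2⟩ else ⟨0, h0⟩
  else ⟨0, h0⟩

lemma evenRule_spec {N : ℕ} (h0 : 0 < N) (w : List (Fin N)) (hw : w.Nodup)
    (hlen : w.length + 2 ≤ N) :
    ∃ ρ : Perm (Fin N), Perm.sign ρ = 1 ∧ pre ρ w.length = w ∧
      evenRule h0 w = ρ ⟨w.length, by omega⟩ ∧ evenRule h0 w ∉ w := by
  have h := exists_even_pre w hw hlen
  refine ⟨h.choose, h.choose_spec.1, h.choose_spec.2, ?_, ?_⟩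
  · unfold evenRule
    rw [dif_pos h, dif_pos (by omega)]
  · unfold evenRule
    rw [dif_pos h, dif_pos (by omega)]
    intro hmem
    have h1 : h.choose ⟨w.length, by omega⟩ ∈ pre h.choose w.length := by
      rw [h.choose_spec.2]; exact hmem
    rw [mem_pre] at h1
    obtain ⟨j, hj, hj2⟩ := h1
    have := congrArg Fin.val (h.choose.injective hj2)
    simp at this
    omega

/-- If the next-to-last entry is chosen by `evenRule` then the permutation is even. -/
lemma sign_eq_one_of_evenRule {N : ℕ} (h2 : 2 ≤ N) (π : Perm (Fin N))
    (h : π ⟨N - 2, by omega⟩ = legalize (evenRule (by omega)) (pre π (N - 2))) :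
    Perm.sign π = 1 := by
  have hl : (pre π (N - 2)).length = N - 2 := length_pre π (by omega)
  obtain ⟨ρ, h1, h3, h4, h5⟩ := evenRule_spec (N := N) (by omega) (pre π (N - 2))
    (nodup_pre π _) (by omega)
  rw [legalize_eq h5, h4] at h
  have hπρ : π = ρ := by
    apply eq_of_agree
    intro j hj
    by_cases hj2 : (j : ℕ) < N - 2
    · have h6 : (pre ρ (pre π (N - 2)).length)[(j : ℕ)]'(by
          rw [h3, hl]; exact hj2) = (pre π (N - 2))[(j : ℕ)]'(by rw [hl]; exact hj2) := by
        congr 1
      rw [getElem_pre _ _ j.2, getElem_pre _ _ j.2] at h6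
      exact h6.symm
    · have h6 : j = ⟨N - 2, by omega⟩ := by
        apply Fin.ext
        simp only
        omega
      rw [h6, h]
      congr 1
      apply Fin.ext
      simp only [hl]
  rw [hπρ]
  exact h1

/-- Two even permutations of at least two points do not generate. -/
lemma closure_ne_top_of_even {N : ℕ} (h2 : 2 ≤ N) (σ τ : Perm (Fin N))
    (hσ : Perm.sign σ = 1) (hτ : Perm.sign τ = 1) : Subgroup.closure {σ, τ} ≠ ⊤ := by
  intro htop
  have hle : Subgroup.closure {σ, τ} ≤ (Perm.sign (α := Fin N)).ker := by
    rw [Subgroup.closure_le]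
    rintro x (rfl | hx)
    · exact hσ
    · rw [Set.mem_singleton_iff] at hx
      subst hx
      exact hτ
  rw [htop] at hle
  let a : Fin N := ⟨0, by omega⟩
  let b : Fin N := ⟨1, by omega⟩
  have hab : a ≠ b := by
    intro h
    exact absurd (congrArg Fin.val h) (by simp [a, b])
  have h := hle (show swap a b ∈ (⊤ : Subgroup (Perm (Fin N))) from trivial)
  rw [MonoidHom.mem_ker, Perm.sign_swap hab] at h
  exact absurd h (by decide)

end Q167.PermGame
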